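import Pool.Agent.helper12.GS.Pm

/-!
Generated: constants of the corner programs of the table Q45a.
-/

namespace Pool.Agent.helper12.K45

open Pool.Agent.helper31.IA (Z)
open Pool.Agent.helper12.GS

def p0 : Pm where
  ec := ⟨20300431360, 0, 0, 0⟩
  bc := ⟨0, 0, 0, 0⟩
  nn := ⟨1099511627776, 0, 0, 0⟩
  tj := ⟨4398046511104, 0, 0, 0⟩
  ca := ⟨1099511627776, 0, 0, 0⟩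
  cb := ⟨879662989312, 0, 0, 0⟩
  cc := ⟨0, 0, 0, 0⟩
  ax := ⟨0, 0, 0, 0⟩
  ay := ⟨0, 0, 0, 0⟩
  xa := ⟨0, 0, 0, 0⟩
  C2 := ⟨0, 0, 0, 0⟩
  wr := ⟨0, 1061930663936, 0, 0⟩
  wi := ⟨5872294035456, 0, 0, 0⟩
  w1 := ⟨0, 28759101014016, 0, 0⟩
  h000 := ⟨0, 16196203456, 0, 0⟩
  h001 := ⟨0, 1683172480, 0, 0⟩
  h002 := ⟨3181402816, 0, 0, 0⟩
  h003 := ⟨3147513920, 0, 0, 0⟩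
  h010 := ⟨0, 1440983498368, 0, 0⟩
  h011 := ⟨626653448064, 0, 0, 0⟩
  h012 := ⟨0, 0, 0, 0⟩
  h020 := ⟨0, 4341605002560, 0, 0⟩
  h021 := ⟨0, 0, 0, 0⟩
  h030 := ⟨0, 0, 0, 0⟩
  h100 := ⟨0, 1168907712, 0, 0⟩
  h101 := ⟨143153920, 0, 0, 0⟩
  h102 := ⟨0, 274981312, 0, 0⟩
  h110 := ⟨0, 49978929088, 0, 0⟩
  h111 := ⟨0, 301842339264, 0, 0⟩
  h120 := ⟨0, 0, 0, 0⟩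
  h200 := ⟨311497344, 0, 0, 0⟩
  h201 := ⟨83392832, 0, 0, 0⟩
  h202 := ⟨267277952, 0, 0, 0⟩
  h210 := ⟨32622543616, 0, 0, 0⟩
  h211 := ⟨0, 0, 0, 0⟩
  h300 := ⟨42944704, 0, 0, 0⟩
  h301 := ⟨0, 25476928, 0, 0⟩
  h310 := ⟨0, 7057082880, 0, 0⟩
  h400 := ⟨0, 18118272, 0, 0⟩
  h401 := ⟨7869312, 0, 0, 0⟩
  h410 := ⟨0, 0, 0, 0⟩
  h500 := ⟨3560960, 0, 0, 0⟩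
  h501 := ⟨0, 0, 0, 0⟩
  h600 := ⟨0, 292544, 0, 0⟩
  h700 := ⟨20096, 0, 0, 0⟩
  h800 := ⟨0, 0, 0, 0⟩
  m000 := ⟨1094598656000, 0, 0, 0⟩
  m001 := ⟨0, 2098921472, 0, 0⟩
  m002 := ⟨8448049152, 0, 0, 0⟩
  m010 := ⟨229464932352, 0, 0, 0⟩
  m100 := ⟨13305446400, 0, 0, 0⟩
  m101 := ⟨187629568, 0, 0, 0⟩
  m110 := ⟨547184705536, 0, 0, 0⟩
  m200 := ⟨0, 806223872, 0, 0⟩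
  m300 := ⟨114360320, 0, 0, 0⟩
  a00 := ⟨105835659264, 0, 0, 0⟩
  a01 := ⟨294396100608, 0, 0, 0⟩
  a02 := ⟨0, 793638600704, 0, 0⟩
  a03 := ⟨1675457462272, 0, 0, 0⟩
  a10 := ⟨1301777285120, 0, 0, 0⟩
  a11 := ⟨0, 3640991285248, 0, 0⟩
  b00 := ⟨87599611904, 0, 0, 0⟩
  b01 := ⟨199387709440, 0, 0, 0⟩
  b02 := ⟨0, 590525169664, 0, 0⟩
  b03 := ⟨1188910792704, 0, 0, 0⟩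
  b10 := ⟨724001816576, 0, 0, 0⟩
  b11 := ⟨0, 3438618607616, 0, 0⟩
  t00 := ⟨1271291117568, 0, 0, 0⟩
  t01 := ⟨676609916928, 0, 0, 0⟩
  t02 := ⟨0, 3413660008448, 0, 0⟩
  t03 := ⟨8071842037760, 0, 0, 0⟩
  t10 := ⟨16291847798784, 0, 0, 0⟩
  t11 := ⟨0, 5639601455104, 0, 0⟩
  s00 := ⟨1557477392384, 0, 0, 0⟩
  s01 := ⟨519597064192, 0, 0, 0⟩
  s02 := ⟨3221570846720, 0, 0, 0⟩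
  s03 := ⟨0, 2031654862848, 0, 0⟩
  s10 := ⟨0, 5151304056832, 0, 0⟩
  s11 := ⟨60505061457920, 0, 0, 0⟩
  g00 := ⟨137651824768, 0, 0, 0⟩
  g01 := ⟨0, 54069104896, 0, 0⟩
  g10 := ⟨8996164881536, 0, 0, 0⟩
  g11 := ⟨0, 0, 0, 0⟩
  f00 := ⟨360002610688, 0, 0, 0⟩
  f01 := ⟨366734264704, 0, 0, 0⟩
  f10 := ⟨30620273555776, 0, 0, 0⟩
  f11 := ⟨0, 0, 0, 0⟩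
  l000 := ⟨0, 0, 0, 0⟩
  l001 := ⟨0, 0, 0, 0⟩
  l002 := ⟨0, 0, 0, 0⟩
  l010 := ⟨0, 0, 0, 0⟩
  l011 := ⟨0, 0, 0, 0⟩
  l020 := ⟨0, 0, 0, 0⟩
  l100 := ⟨0, 0, 0, 0⟩
  l101 := ⟨0, 0, 0, 0⟩
  l102 := ⟨0, 0, 0, 0⟩
  l110 := ⟨0, 0, 0, 0⟩
  l111 := ⟨0, 0, 0, 0⟩
  l120 := ⟨0, 0, 0, 0⟩
  l200 := ⟨0, 0, 0, 0⟩
  l201 := ⟨0, 0, 0, 0⟩
  l210 := ⟨0, 0, 0, 0⟩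
  l300 := ⟨0, 0, 0, 0⟩
  l301 := ⟨0, 0, 0, 0⟩
  l310 := ⟨0, 0, 0, 0⟩
  l400 := ⟨0, 0, 0, 0⟩
  l401 := ⟨0, 0, 0, 0⟩
  l410 := ⟨0, 0, 0, 0⟩
  l500 := ⟨0, 0, 0, 0⟩
  l501 := ⟨0, 0, 0, 0⟩
  l510 := ⟨0, 0, 0, 0⟩
  l600 := ⟨0, 0, 0, 0⟩
  l700 := ⟨0, 0, 0, 0⟩
  l800 := ⟨0, 0, 0, 0⟩
  l900 := ⟨0, 0, 0, 0⟩
  l1000 := ⟨0, 0, 0, 0⟩
  l1100 := ⟨0, 0, 0, 0⟩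
  q00 := ⟨0, 0, 0, 0⟩
  q01 := ⟨0, 0, 0, 0⟩
  q02 := ⟨0, 0, 0, 0⟩
  q03 := ⟨0, 0, 0, 0⟩
  q10 := ⟨0, 0, 0, 0⟩
  q11 := ⟨0, 0, 0, 0⟩
  q12 := ⟨0, 0, 0, 0⟩
  q20 := ⟨0, 0, 0, 0⟩
  q21 := ⟨0, 0, 0, 0⟩
  q30 := ⟨0, 0, 0, 0⟩
  n000 := ⟨0, 0, 0, 0⟩
  n001 := ⟨0, 0, 0, 0⟩
  n002 := ⟨0, 0, 0, 0⟩
  n010 := ⟨0, 0, 0, 0⟩
  n011 := ⟨0, 0, 0, 0⟩
  n020 := ⟨0, 0, 0, 0⟩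
  n100 := ⟨0, 0, 0, 0⟩
  n101 := ⟨0, 0, 0, 0⟩
  n110 := ⟨0, 0, 0, 0⟩
  n200 := ⟨0, 0, 0, 0⟩
  n201 := ⟨0, 0, 0, 0⟩
  n210 := ⟨0, 0, 0, 0⟩
  n300 := ⟨0, 0, 0, 0⟩
  n400 := ⟨0, 0, 0, 0⟩
  n500 := ⟨0, 0, 0, 0⟩
  e00 := ⟨0, 0, 0, 0⟩
  e01 := ⟨0, 0, 0, 0⟩
  e02 := ⟨0, 0, 0, 0⟩
  e03 := ⟨0, 0, 0, 0⟩
  e10 := ⟨0, 0, 0, 0⟩
  e11 := ⟨0, 0, 0, 0⟩
  B1 := 0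

def p1 : Pm where
  ec := ⟨20300431360, 0, 0, 0⟩
  bc := ⟨0, 0, 0, 0⟩
  nn := ⟨2199023255552, 0, 0, 0⟩
  tj := ⟨6597069766656, 0, 0, 0⟩
  ca := ⟨879662989312, 0, 0, 0⟩
  cb := ⟨769604452352, 0, 0, 0⟩
  cc := ⟨0, 0, 0, 0⟩
  ax := ⟨0, 0, 0, 0⟩
  ay := ⟨0, 0, 0, 0⟩
  xa := ⟨0, 0, 0, 0⟩
  C2 := ⟨0, 0, 0, 0⟩
  wr := ⟨0, 1061930663936, 0, 0⟩
  wi := ⟨5872294035456, 0, 0, 0⟩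
  w1 := ⟨0, 28759101014016, 0, 0⟩
  h000 := ⟨0, 16196203456, 0, 0⟩
  h001 := ⟨0, 1683172480, 0, 0⟩
  h002 := ⟨3181402816, 0, 0, 0⟩
  h003 := ⟨3147513920, 0, 0, 0⟩
  h010 := ⟨0, 1440983498368, 0, 0⟩
  h011 := ⟨626653448064, 0, 0, 0⟩
  h012 := ⟨0, 0, 0, 0⟩
  h020 := ⟨0, 4341605002560, 0, 0⟩
  h021 := ⟨0, 0, 0, 0⟩
  h030 := ⟨0, 0, 0, 0⟩
  h100 := ⟨0, 1168907712, 0, 0⟩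
  h101 := ⟨143153920, 0, 0, 0⟩
  h102 := ⟨0, 274981312, 0, 0⟩
  h110 := ⟨0, 49978929088, 0, 0⟩
  h111 := ⟨0, 301842339264, 0, 0⟩
  h120 := ⟨0, 0, 0, 0⟩
  h200 := ⟨311497344, 0, 0, 0⟩
  h201 := ⟨83392832, 0, 0, 0⟩
  h202 := ⟨267277952, 0, 0, 0⟩
  h210 := ⟨32622543616, 0, 0, 0⟩
  h211 := ⟨0, 0, 0, 0⟩
  h300 := ⟨42944704, 0, 0, 0⟩
  h301 := ⟨0, 25476928, 0, 0⟩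
  h310 := ⟨0, 7057082880, 0, 0⟩
  h400 := ⟨0, 18118272, 0, 0⟩
  h401 := ⟨7869312, 0, 0, 0⟩
  h410 := ⟨0, 0, 0, 0⟩
  h500 := ⟨3560960, 0, 0, 0⟩
  h501 := ⟨0, 0, 0, 0⟩
  h600 := ⟨0, 292544, 0, 0⟩
  h700 := ⟨20096, 0, 0, 0⟩
  h800 := ⟨0, 0, 0, 0⟩
  m000 := ⟨1095278067712, 0, 0, 0⟩
  m001 := ⟨0, 1617625088, 0, 0⟩
  m002 := ⟨6674317312, 0, 0, 0⟩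
  m010 := ⟨198462013440, 0, 0, 0⟩
  m100 := ⟨12949716992, 0, 0, 0⟩
  m101 := ⟨247005184, 0, 0, 0⟩
  m110 := ⟨545531887616, 0, 0, 0⟩
  m200 := ⟨0, 727187456, 0, 0⟩
  m300 := ⟨101056512, 0, 0, 0⟩
  a00 := ⟨87599611904, 0, 0, 0⟩
  a01 := ⟨199387709440, 0, 0, 0⟩
  a02 := ⟨0, 590525169664, 0, 0⟩
  a03 := ⟨1188910792704, 0, 0, 0⟩
  a10 := ⟨724001816576, 0, 0, 0⟩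
  a11 := ⟨0, 3438618607616, 0, 0⟩
  b00 := ⟨76151390208, 0, 0, 0⟩
  b01 := ⟨146812174336, 0, 0, 0⟩
  b02 := ⟨0, 483949740032, 0, 0⟩
  b03 := ⟨910086504448, 0, 0, 0⟩
  b10 := ⟨245077704704, 0, 0, 0⟩
  b11 := ⟨0, 3590980173824, 0, 0⟩
  t00 := ⟨1051589279744, 0, 0, 0⟩
  t01 := ⟨520154251264, 0, 0, 0⟩
  t02 := ⟨0, 3071443927040, 0, 0⟩
  t03 := ⟨6846805245952, 0, 0, 0⟩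
  t10 := ⟨9404566011904, 0, 0, 0⟩
  t11 := ⟨0, 2401921531904, 0, 0⟩
  s00 := ⟨2828768509952, 0, 0, 0⟩
  s01 := ⟨1196206981120, 0, 0, 0⟩
  s02 := ⟨0, 192089161728, 0, 0⟩
  s03 := ⟨6040187174912, 0, 0, 0⟩
  s10 := ⟨11140543741952, 0, 0, 0⟩
  s11 := ⟨54865460002816, 0, 0, 0⟩
  g00 := ⟨137651824768, 0, 0, 0⟩
  g01 := ⟨0, 54069104896, 0, 0⟩
  g10 := ⟨8996164881536, 0, 0, 0⟩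
  g11 := ⟨0, 0, 0, 0⟩
  f00 := ⟨360002610688, 0, 0, 0⟩
  f01 := ⟨366734264704, 0, 0, 0⟩
  f10 := ⟨30620273555776, 0, 0, 0⟩
  f11 := ⟨0, 0, 0, 0⟩
  l000 := ⟨0, 0, 0, 0⟩
  l001 := ⟨0, 0, 0, 0⟩
  l002 := ⟨0, 0, 0, 0⟩
  l010 := ⟨0, 0, 0, 0⟩
  l011 := ⟨0, 0, 0, 0⟩
  l020 := ⟨0, 0, 0, 0⟩
  l100 := ⟨0, 0, 0, 0⟩
  l101 := ⟨0, 0, 0, 0⟩
  l102 := ⟨0, 0, 0, 0⟩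
  l110 := ⟨0, 0, 0, 0⟩
  l111 := ⟨0, 0, 0, 0⟩
  l120 := ⟨0, 0, 0, 0⟩
  l200 := ⟨0, 0, 0, 0⟩
  l201 := ⟨0, 0, 0, 0⟩
  l210 := ⟨0, 0, 0, 0⟩
  l300 := ⟨0, 0, 0, 0⟩
  l301 := ⟨0, 0, 0, 0⟩
  l310 := ⟨0, 0, 0, 0⟩
  l400 := ⟨0, 0, 0, 0⟩
  l401 := ⟨0, 0, 0, 0⟩
  l410 := ⟨0, 0, 0, 0⟩
  l500 := ⟨0, 0, 0, 0⟩
  l501 := ⟨0, 0, 0, 0⟩
  l510 := ⟨0, 0, 0, 0⟩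
  l600 := ⟨0, 0, 0, 0⟩
  l700 := ⟨0, 0, 0, 0⟩
  l800 := ⟨0, 0, 0, 0⟩
  l900 := ⟨0, 0, 0, 0⟩
  l1000 := ⟨0, 0, 0, 0⟩
  l1100 := ⟨0, 0, 0, 0⟩
  q00 := ⟨0, 0, 0, 0⟩
  q01 := ⟨0, 0, 0, 0⟩
  q02 := ⟨0, 0, 0, 0⟩
  q03 := ⟨0, 0, 0, 0⟩
  q10 := ⟨0, 0, 0, 0⟩
  q11 := ⟨0, 0, 0, 0⟩
  q12 := ⟨0, 0, 0, 0⟩
  q20 := ⟨0, 0, 0, 0⟩
  q21 := ⟨0, 0, 0, 0⟩
  q30 := ⟨0, 0, 0, 0⟩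
  n000 := ⟨0, 0, 0, 0⟩
  n001 := ⟨0, 0, 0, 0⟩
  n002 := ⟨0, 0, 0, 0⟩
  n010 := ⟨0, 0, 0, 0⟩
  n011 := ⟨0, 0, 0, 0⟩
  n020 := ⟨0, 0, 0, 0⟩
  n100 := ⟨0, 0, 0, 0⟩
  n101 := ⟨0, 0, 0, 0⟩
  n110 := ⟨0, 0, 0, 0⟩
  n200 := ⟨0, 0, 0, 0⟩
  n201 := ⟨0, 0, 0, 0⟩
  n210 := ⟨0, 0, 0, 0⟩
  n300 := ⟨0, 0, 0, 0⟩
  n400 := ⟨0, 0, 0, 0⟩
  n500 := ⟨0, 0, 0, 0⟩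
  e00 := ⟨0, 0, 0, 0⟩
  e01 := ⟨0, 0, 0, 0⟩
  e02 := ⟨0, 0, 0, 0⟩
  e03 := ⟨0, 0, 0, 0⟩
  e10 := ⟨0, 0, 0, 0⟩
  e11 := ⟨0, 0, 0, 0⟩
  B1 := 0

def p2 : Pm where
  ec := ⟨20300431360, 0, 0, 0⟩
  bc := ⟨0, 0, 0, 0⟩
  nn := ⟨3298534883328, 0, 0, 0⟩
  tj := ⟨8796093022208, 0, 0, 0⟩
  ca := ⟨769604452352, 0, 0, 0⟩
  cb := ⟨659814350848, 0, 0, 0⟩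
  cc := ⟨0, 0, 0, 0⟩
  ax := ⟨0, 0, 0, 0⟩
  ay := ⟨0, 0, 0, 0⟩
  xa := ⟨0, 0, 0, 0⟩
  C2 := ⟨0, 0, 0, 0⟩
  wr := ⟨0, 1061930663936, 0, 0⟩
  wi := ⟨5872294035456, 0, 0, 0⟩
  w1 := ⟨0, 28759101014016, 0, 0⟩
  h000 := ⟨0, 16196203456, 0, 0⟩
  h001 := ⟨0, 1683172480, 0, 0⟩
  h002 := ⟨3181402816, 0, 0, 0⟩
  h003 := ⟨3147513920, 0, 0, 0⟩
  h010 := ⟨0, 1440983498368, 0, 0⟩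
  h011 := ⟨626653448064, 0, 0, 0⟩
  h012 := ⟨0, 0, 0, 0⟩
  h020 := ⟨0, 4341605002560, 0, 0⟩
  h021 := ⟨0, 0, 0, 0⟩
  h030 := ⟨0, 0, 0, 0⟩
  h100 := ⟨0, 1168907712, 0, 0⟩
  h101 := ⟨143153920, 0, 0, 0⟩
  h102 := ⟨0, 274981312, 0, 0⟩
  h110 := ⟨0, 49978929088, 0, 0⟩
  h111 := ⟨0, 301842339264, 0, 0⟩
  h120 := ⟨0, 0, 0, 0⟩
  h200 := ⟨311497344, 0, 0, 0⟩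
  h201 := ⟨83392832, 0, 0, 0⟩
  h202 := ⟨267277952, 0, 0, 0⟩
  h210 := ⟨32622543616, 0, 0, 0⟩
  h211 := ⟨0, 0, 0, 0⟩
  h300 := ⟨42944704, 0, 0, 0⟩
  h301 := ⟨0, 25476928, 0, 0⟩
  h310 := ⟨0, 7057082880, 0, 0⟩
  h400 := ⟨0, 18118272, 0, 0⟩
  h401 := ⟨7869312, 0, 0, 0⟩
  h410 := ⟨0, 0, 0, 0⟩
  h500 := ⟨3560960, 0, 0, 0⟩
  h501 := ⟨0, 0, 0, 0⟩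
  h600 := ⟨0, 292544, 0, 0⟩
  h700 := ⟨20096, 0, 0, 0⟩
  h800 := ⟨0, 0, 0, 0⟩
  m000 := ⟨1095998636032, 0, 0, 0⟩
  m001 := ⟨0, 1204879360, 0, 0⟩
  m002 := ⟨5309267968, 0, 0, 0⟩
  m010 := ⟨177840717824, 0, 0, 0⟩
  m100 := ⟨12561350656, 0, 0, 0⟩
  m101 := ⟨292814848, 0, 0, 0⟩
  m110 := ⟨545606533120, 0, 0, 0⟩
  m200 := ⟨0, 638713856, 0, 0⟩
  m300 := ⟨86245376, 0, 0, 0⟩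
  a00 := ⟨76151390208, 0, 0, 0⟩
  a01 := ⟨146812174336, 0, 0, 0⟩
  a02 := ⟨0, 483949740032, 0, 0⟩
  a03 := ⟨910086504448, 0, 0, 0⟩
  a10 := ⟨245077704704, 0, 0, 0⟩
  a11 := ⟨0, 3590980173824, 0, 0⟩
  b00 := ⟨66325839872, 0, 0, 0⟩
  b01 := ⟨104764669952, 0, 0, 0⟩
  b02 := ⟨0, 371198853120, 0, 0⟩
  b03 := ⟨634742964224, 0, 0, 0⟩
  b10 := ⟨0, 122151960576, 0, 0⟩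
  b11 := ⟨0, 3569736876032, 0, 0⟩
  t00 := ⟨914972803072, 0, 0, 0⟩
  t01 := ⟨264002994176, 0, 0, 0⟩
  t02 := ⟨0, 2002097668096, 0, 0⟩
  t03 := ⟨4029036822528, 0, 0, 0⟩
  t10 := ⟨3696284729344, 0, 0, 0⟩
  t11 := ⟨0, 4005082759168, 0, 0⟩
  s00 := ⟨3880357789696, 0, 0, 0⟩
  s01 := ⟨1716361232384, 0, 0, 0⟩
  s02 := ⟨0, 3263533088768, 0, 0⟩
  s03 := ⟨12886992420864, 0, 0, 0⟩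
  s10 := ⟨20545109753856, 0, 0, 0⟩
  s11 := ⟨52463538470912, 0, 0, 0⟩
  g00 := ⟨137651824768, 0, 0, 0⟩
  g01 := ⟨0, 54069104896, 0, 0⟩
  g10 := ⟨8996164881536, 0, 0, 0⟩
  g11 := ⟨0, 0, 0, 0⟩
  f00 := ⟨360002610688, 0, 0, 0⟩
  f01 := ⟨366734264704, 0, 0, 0⟩
  f10 := ⟨30620273555776, 0, 0, 0⟩
  f11 := ⟨0, 0, 0, 0⟩
  l000 := ⟨0, 0, 0, 0⟩
  l001 := ⟨0, 0, 0, 0⟩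
  l002 := ⟨0, 0, 0, 0⟩
  l010 := ⟨0, 0, 0, 0⟩
  l011 := ⟨0, 0, 0, 0⟩
  l020 := ⟨0, 0, 0, 0⟩
  l100 := ⟨0, 0, 0, 0⟩
  l101 := ⟨0, 0, 0, 0⟩
  l102 := ⟨0, 0, 0, 0⟩
  l110 := ⟨0, 0, 0, 0⟩
  l111 := ⟨0, 0, 0, 0⟩
  l120 := ⟨0, 0, 0, 0⟩
  l200 := ⟨0, 0, 0, 0⟩
  l201 := ⟨0, 0, 0, 0⟩
  l210 := ⟨0, 0, 0, 0⟩
  l300 := ⟨0, 0, 0, 0⟩
  l301 := ⟨0, 0, 0, 0⟩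
  l310 := ⟨0, 0, 0, 0⟩
  l400 := ⟨0, 0, 0, 0⟩
  l401 := ⟨0, 0, 0, 0⟩
  l410 := ⟨0, 0, 0, 0⟩
  l500 := ⟨0, 0, 0, 0⟩
  l501 := ⟨0, 0, 0, 0⟩
  l510 := ⟨0, 0, 0, 0⟩
  l600 := ⟨0, 0, 0, 0⟩
  l700 := ⟨0, 0, 0, 0⟩
  l800 := ⟨0, 0, 0, 0⟩
  l900 := ⟨0, 0, 0, 0⟩
  l1000 := ⟨0, 0, 0, 0⟩
  l1100 := ⟨0, 0, 0, 0⟩
  q00 := ⟨0, 0, 0, 0⟩
  q01 := ⟨0, 0, 0, 0⟩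
  q02 := ⟨0, 0, 0, 0⟩
  q03 := ⟨0, 0, 0, 0⟩
  q10 := ⟨0, 0, 0, 0⟩
  q11 := ⟨0, 0, 0, 0⟩
  q12 := ⟨0, 0, 0, 0⟩
  q20 := ⟨0, 0, 0, 0⟩
  q21 := ⟨0, 0, 0, 0⟩
  q30 := ⟨0, 0, 0, 0⟩
  n000 := ⟨0, 0, 0, 0⟩
  n001 := ⟨0, 0, 0, 0⟩
  n002 := ⟨0, 0, 0, 0⟩
  n010 := ⟨0, 0, 0, 0⟩
  n011 := ⟨0, 0, 0, 0⟩
  n020 := ⟨0, 0, 0, 0⟩
  n100 := ⟨0, 0, 0, 0⟩
  n101 := ⟨0, 0, 0, 0⟩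
  n110 := ⟨0, 0, 0, 0⟩
  n200 := ⟨0, 0, 0, 0⟩
  n201 := ⟨0, 0, 0, 0⟩
  n210 := ⟨0, 0, 0, 0⟩
  n300 := ⟨0, 0, 0, 0⟩
  n400 := ⟨0, 0, 0, 0⟩
  n500 := ⟨0, 0, 0, 0⟩
  e00 := ⟨0, 0, 0, 0⟩
  e01 := ⟨0, 0, 0, 0⟩
  e02 := ⟨0, 0, 0, 0⟩
  e03 := ⟨0, 0, 0, 0⟩
  e10 := ⟨0, 0, 0, 0⟩
  e11 := ⟨0, 0, 0, 0⟩
  B1 := 0

def p3 : Pm where
  ec := ⟨20300431360, 0, 0, 0⟩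
  bc := ⟨0, 0, 0, 0⟩
  nn := ⟨4398046511104, 0, 0, 0⟩
  tj := ⟨10995116277760, 0, 0, 0⟩
  ca := ⟨659814350848, 0, 0, 0⟩
  cb := ⟨549755813888, 0, 0, 0⟩
  cc := ⟨0, 0, 0, 0⟩
  ax := ⟨0, 0, 0, 0⟩
  ay := ⟨0, 0, 0, 0⟩
  xa := ⟨0, 0, 0, 0⟩
  C2 := ⟨0, 0, 0, 0⟩
  wr := ⟨0, 1061930663936, 0, 0⟩
  wi := ⟨5872294035456, 0, 0, 0⟩
  w1 := ⟨0, 28759101014016, 0, 0⟩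
  h000 := ⟨0, 16196203456, 0, 0⟩
  h001 := ⟨0, 1683172480, 0, 0⟩
  h002 := ⟨3181402816, 0, 0, 0⟩
  h003 := ⟨3147513920, 0, 0, 0⟩
  h010 := ⟨0, 1440983498368, 0, 0⟩
  h011 := ⟨626653448064, 0, 0, 0⟩
  h012 := ⟨0, 0, 0, 0⟩
  h020 := ⟨0, 4341605002560, 0, 0⟩
  h021 := ⟨0, 0, 0, 0⟩
  h030 := ⟨0, 0, 0, 0⟩
  h100 := ⟨0, 1168907712, 0, 0⟩
  h101 := ⟨143153920, 0, 0, 0⟩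
  h102 := ⟨0, 274981312, 0, 0⟩
  h110 := ⟨0, 49978929088, 0, 0⟩
  h111 := ⟨0, 301842339264, 0, 0⟩
  h120 := ⟨0, 0, 0, 0⟩
  h200 := ⟨311497344, 0, 0, 0⟩
  h201 := ⟨83392832, 0, 0, 0⟩
  h202 := ⟨267277952, 0, 0, 0⟩
  h210 := ⟨32622543616, 0, 0, 0⟩
  h211 := ⟨0, 0, 0, 0⟩
  h300 := ⟨42944704, 0, 0, 0⟩
  h301 := ⟨0, 25476928, 0, 0⟩
  h310 := ⟨0, 7057082880, 0, 0⟩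
  h400 := ⟨0, 18118272, 0, 0⟩
  h401 := ⟨7869312, 0, 0, 0⟩
  h410 := ⟨0, 0, 0, 0⟩
  h500 := ⟨3560960, 0, 0, 0⟩
  h501 := ⟨0, 0, 0, 0⟩
  h600 := ⟨0, 292544, 0, 0⟩
  h700 := ⟨20096, 0, 0, 0⟩
  h800 := ⟨0, 0, 0, 0⟩
  m000 := ⟨1096631189504, 0, 0, 0⟩
  m001 := ⟨0, 817102848, 0, 0⟩
  m002 := ⟨4056219648, 0, 0, 0⟩
  m010 := ⟨156132900864, 0, 0, 0⟩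
  m100 := ⟨12212568064, 0, 0, 0⟩
  m101 := ⟨355926016, 0, 0, 0⟩
  m110 := ⟨544584237056, 0, 0, 0⟩
  m200 := ⟨0, 557514752, 0, 0⟩
  m300 := ⟨72941568, 0, 0, 0⟩
  a00 := ⟨66325839872, 0, 0, 0⟩
  a01 := ⟨104764669952, 0, 0, 0⟩
  a02 := ⟨0, 371198853120, 0, 0⟩
  a03 := ⟨634742964224, 0, 0, 0⟩
  a10 := ⟨0, 122151960576, 0, 0⟩
  a11 := ⟨0, 3569736876032, 0, 0⟩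
  b00 := ⟨57979371520, 0, 0, 0⟩
  b01 := ⟨55289184256, 0, 0, 0⟩
  b02 := ⟨0, 140420186112, 0, 0⟩
  b03 := ⟨124046671872, 0, 0, 0⟩
  b10 := ⟨0, 434177376256, 0, 0⟩
  b11 := ⟨0, 3308353421312, 0, 0⟩
  t00 := ⟨797388046336, 0, 0, 0⟩
  t01 := ⟨58343555072, 0, 0, 0⟩
  t02 := ⟨0, 650404102144, 0, 0⟩
  t03 := ⟨199903870976, 0, 0, 0⟩
  t10 := ⟨0, 771074228224, 0, 0⟩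
  t11 := ⟨0, 4905093693440, 0, 0⟩
  s00 := ⟨4795330592768, 0, 0, 0⟩
  s01 := ⟨1980364226560, 0, 0, 0⟩
  s02 := ⟨0, 5265630756864, 0, 0⟩
  s03 := ⟨16916029243392, 0, 0, 0⟩
  s10 := ⟨24241394483200, 0, 0, 0⟩
  s11 := ⟨48458455711744, 0, 0, 0⟩
  g00 := ⟨137651824768, 0, 0, 0⟩
  g01 := ⟨0, 54069104896, 0, 0⟩
  g10 := ⟨8996164881536, 0, 0, 0⟩
  g11 := ⟨0, 0, 0, 0⟩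
  f00 := ⟨360002610688, 0, 0, 0⟩
  f01 := ⟨366734264704, 0, 0, 0⟩
  f10 := ⟨30620273555776, 0, 0, 0⟩
  f11 := ⟨0, 0, 0, 0⟩
  l000 := ⟨0, 0, 0, 0⟩
  l001 := ⟨0, 0, 0, 0⟩
  l002 := ⟨0, 0, 0, 0⟩
  l010 := ⟨0, 0, 0, 0⟩
  l011 := ⟨0, 0, 0, 0⟩
  l020 := ⟨0, 0, 0, 0⟩
  l100 := ⟨0, 0, 0, 0⟩
  l101 := ⟨0, 0, 0, 0⟩
  l102 := ⟨0, 0, 0, 0⟩
  l110 := ⟨0, 0, 0, 0⟩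
  l111 := ⟨0, 0, 0, 0⟩
  l120 := ⟨0, 0, 0, 0⟩
  l200 := ⟨0, 0, 0, 0⟩
  l201 := ⟨0, 0, 0, 0⟩
  l210 := ⟨0, 0, 0, 0⟩
  l300 := ⟨0, 0, 0, 0⟩
  l301 := ⟨0, 0, 0, 0⟩
  l310 := ⟨0, 0, 0, 0⟩
  l400 := ⟨0, 0, 0, 0⟩
  l401 := ⟨0, 0, 0, 0⟩
  l410 := ⟨0, 0, 0, 0⟩
  l500 := ⟨0, 0, 0, 0⟩
  l501 := ⟨0, 0, 0, 0⟩
  l510 := ⟨0, 0, 0, 0⟩
  l600 := ⟨0, 0, 0, 0⟩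
  l700 := ⟨0, 0, 0, 0⟩
  l800 := ⟨0, 0, 0, 0⟩
  l900 := ⟨0, 0, 0, 0⟩
  l1000 := ⟨0, 0, 0, 0⟩
  l1100 := ⟨0, 0, 0, 0⟩
  q00 := ⟨0, 0, 0, 0⟩
  q01 := ⟨0, 0, 0, 0⟩
  q02 := ⟨0, 0, 0, 0⟩
  q03 := ⟨0, 0, 0, 0⟩
  q10 := ⟨0, 0, 0, 0⟩
  q11 := ⟨0, 0, 0, 0⟩
  q12 := ⟨0, 0, 0, 0⟩
  q20 := ⟨0, 0, 0, 0⟩
  q21 := ⟨0, 0, 0, 0⟩
  q30 := ⟨0, 0, 0, 0⟩
  n000 := ⟨0, 0, 0, 0⟩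
  n001 := ⟨0, 0, 0, 0⟩
  n002 := ⟨0, 0, 0, 0⟩
  n010 := ⟨0, 0, 0, 0⟩
  n011 := ⟨0, 0, 0, 0⟩
  n020 := ⟨0, 0, 0, 0⟩
  n100 := ⟨0, 0, 0, 0⟩
  n101 := ⟨0, 0, 0, 0⟩
  n110 := ⟨0, 0, 0, 0⟩
  n200 := ⟨0, 0, 0, 0⟩
  n201 := ⟨0, 0, 0, 0⟩
  n210 := ⟨0, 0, 0, 0⟩
  n300 := ⟨0, 0, 0, 0⟩
  n400 := ⟨0, 0, 0, 0⟩
  n500 := ⟨0, 0, 0, 0⟩
  e00 := ⟨0, 0, 0, 0⟩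
  e01 := ⟨0, 0, 0, 0⟩
  e02 := ⟨0, 0, 0, 0⟩
  e03 := ⟨0, 0, 0, 0⟩
  e10 := ⟨0, 0, 0, 0⟩
  e11 := ⟨0, 0, 0, 0⟩
  B1 := 0

def p4 : Pm where
  ec := ⟨20300431360, 0, 0, 0⟩
  bc := ⟨0, 0, 0, 0⟩
  nn := ⟨5497558138880, 0, 0, 0⟩
  tj := ⟨13194139533312, 0, 0, 0⟩
  ca := ⟨549755813888, 0, 0, 0⟩
  cb := ⟨439697276928, 0, 0, 0⟩
  cc := ⟨0, 0, 0, 0⟩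
  ax := ⟨0, 0, 0, 0⟩
  ay := ⟨0, 0, 0, 0⟩
  xa := ⟨0, 0, 0, 0⟩
  C2 := ⟨0, 0, 0, 0⟩
  wr := ⟨0, 1061930663936, 0, 0⟩
  wi := ⟨5872294035456, 0, 0, 0⟩
  w1 := ⟨0, 28759101014016, 0, 0⟩
  h000 := ⟨0, 16196203456, 0, 0⟩
  h001 := ⟨0, 1683172480, 0, 0⟩
  h002 := ⟨3181402816, 0, 0, 0⟩
  h003 := ⟨3147513920, 0, 0, 0⟩
  h010 := ⟨0, 1440983498368, 0, 0⟩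
  h011 := ⟨626653448064, 0, 0, 0⟩
  h012 := ⟨0, 0, 0, 0⟩
  h020 := ⟨0, 4341605002560, 0, 0⟩
  h021 := ⟨0, 0, 0, 0⟩
  h030 := ⟨0, 0, 0, 0⟩
  h100 := ⟨0, 1168907712, 0, 0⟩
  h101 := ⟨143153920, 0, 0, 0⟩
  h102 := ⟨0, 274981312, 0, 0⟩
  h110 := ⟨0, 49978929088, 0, 0⟩
  h111 := ⟨0, 301842339264, 0, 0⟩
  h120 := ⟨0, 0, 0, 0⟩
  h200 := ⟨311497344, 0, 0, 0⟩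
  h201 := ⟨83392832, 0, 0, 0⟩
  h202 := ⟨267277952, 0, 0, 0⟩
  h210 := ⟨32622543616, 0, 0, 0⟩
  h211 := ⟨0, 0, 0, 0⟩
  h300 := ⟨42944704, 0, 0, 0⟩
  h301 := ⟨0, 25476928, 0, 0⟩
  h310 := ⟨0, 7057082880, 0, 0⟩
  h400 := ⟨0, 18118272, 0, 0⟩
  h401 := ⟨7869312, 0, 0, 0⟩
  h410 := ⟨0, 0, 0, 0⟩
  h500 := ⟨3560960, 0, 0, 0⟩
  h501 := ⟨0, 0, 0, 0⟩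
  h600 := ⟨0, 292544, 0, 0⟩
  h700 := ⟨20096, 0, 0, 0⟩
  h800 := ⟨0, 0, 0, 0⟩
  m000 := ⟨1097189294080, 0, 0, 0⟩
  m001 := ⟨0, 528547840, 0, 0⟩
  m002 := ⟨3040411648, 0, 0, 0⟩
  m010 := ⟨144123232256, 0, 0, 0⟩
  m100 := ⟨11895767040, 0, 0, 0⟩
  m101 := ⟨362217472, 0, 0, 0⟩
  m110 := ⟨546064760832, 0, 0, 0⟩
  m200 := ⟨0, 481624064, 0, 0⟩
  m300 := ⟨60882944, 0, 0, 0⟩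
  a00 := ⟨57979371520, 0, 0, 0⟩
  a01 := ⟨55289184256, 0, 0, 0⟩
  a02 := ⟨0, 140420186112, 0, 0⟩
  a03 := ⟨124046671872, 0, 0, 0⟩
  a10 := ⟨0, 434177376256, 0, 0⟩
  a11 := ⟨0, 3308353421312, 0, 0⟩
  b00 := ⟨50662014976, 0, 0, 0⟩
  b01 := ⟨21220950016, 0, 0, 0⟩
  b02 := ⟨339869696, 0, 0, 0⟩
  b03 := ⟨0, 170901569536, 0, 0⟩
  b10 := ⟨0, 680655519744, 0, 0⟩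
  b11 := ⟨0, 2815702007808, 0, 0⟩
  t00 := ⟨697437978624, 0, 0, 0⟩
  t01 := ⟨0, 243781861376, 0, 0⟩
  t02 := ⟨1532737421312, 0, 0, 0⟩
  t03 := ⟨0, 5051488665600, 0, 0⟩
  t10 := ⟨0, 4574440390656, 0, 0⟩
  t11 := ⟨0, 4455453556736, 0, 0⟩
  s00 := ⟨5592718639104, 0, 0, 0⟩
  s01 := ⟨2038707781632, 0, 0, 0⟩
  s02 := ⟨0, 5916034859008, 0, 0⟩
  s03 := ⟨17115933114368, 0, 0, 0⟩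
  s10 := ⟨23470320254976, 0, 0, 0⟩
  s11 := ⟨43553362018304, 0, 0, 0⟩
  g00 := ⟨137651824768, 0, 0, 0⟩
  g01 := ⟨0, 54069104896, 0, 0⟩
  g10 := ⟨8996164881536, 0, 0, 0⟩
  g11 := ⟨0, 0, 0, 0⟩
  f00 := ⟨360002610688, 0, 0, 0⟩
  f01 := ⟨366734264704, 0, 0, 0⟩
  f10 := ⟨30620273555776, 0, 0, 0⟩
  f11 := ⟨0, 0, 0, 0⟩
  l000 := ⟨0, 0, 0, 0⟩
  l001 := ⟨0, 0, 0, 0⟩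
  l002 := ⟨0, 0, 0, 0⟩
  l010 := ⟨0, 0, 0, 0⟩
  l011 := ⟨0, 0, 0, 0⟩
  l020 := ⟨0, 0, 0, 0⟩
  l100 := ⟨0, 0, 0, 0⟩
  l101 := ⟨0, 0, 0, 0⟩
  l102 := ⟨0, 0, 0, 0⟩
  l110 := ⟨0, 0, 0, 0⟩
  l111 := ⟨0, 0, 0, 0⟩
  l120 := ⟨0, 0, 0, 0⟩
  l200 := ⟨0, 0, 0, 0⟩
  l201 := ⟨0, 0, 0, 0⟩
  l210 := ⟨0, 0, 0, 0⟩
  l300 := ⟨0, 0, 0, 0⟩
  l301 := ⟨0, 0, 0, 0⟩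
  l310 := ⟨0, 0, 0, 0⟩
  l400 := ⟨0, 0, 0, 0⟩
  l401 := ⟨0, 0, 0, 0⟩
  l410 := ⟨0, 0, 0, 0⟩
  l500 := ⟨0, 0, 0, 0⟩
  l501 := ⟨0, 0, 0, 0⟩
  l510 := ⟨0, 0, 0, 0⟩
  l600 := ⟨0, 0, 0, 0⟩
  l700 := ⟨0, 0, 0, 0⟩
  l800 := ⟨0, 0, 0, 0⟩
  l900 := ⟨0, 0, 0, 0⟩
  l1000 := ⟨0, 0, 0, 0⟩
  l1100 := ⟨0, 0, 0, 0⟩
  q00 := ⟨0, 0, 0, 0⟩
  q01 := ⟨0, 0, 0, 0⟩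
  q02 := ⟨0, 0, 0, 0⟩
  q03 := ⟨0, 0, 0, 0⟩
  q10 := ⟨0, 0, 0, 0⟩
  q11 := ⟨0, 0, 0, 0⟩
  q12 := ⟨0, 0, 0, 0⟩
  q20 := ⟨0, 0, 0, 0⟩
  q21 := ⟨0, 0, 0, 0⟩
  q30 := ⟨0, 0, 0, 0⟩
  n000 := ⟨0, 0, 0, 0⟩
  n001 := ⟨0, 0, 0, 0⟩
  n002 := ⟨0, 0, 0, 0⟩
  n010 := ⟨0, 0, 0, 0⟩
  n011 := ⟨0, 0, 0, 0⟩
  n020 := ⟨0, 0, 0, 0⟩
  n100 := ⟨0, 0, 0, 0⟩
  n101 := ⟨0, 0, 0, 0⟩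
  n110 := ⟨0, 0, 0, 0⟩
  n200 := ⟨0, 0, 0, 0⟩
  n201 := ⟨0, 0, 0, 0⟩
  n210 := ⟨0, 0, 0, 0⟩
  n300 := ⟨0, 0, 0, 0⟩
  n400 := ⟨0, 0, 0, 0⟩
  n500 := ⟨0, 0, 0, 0⟩
  e00 := ⟨0, 0, 0, 0⟩
  e01 := ⟨0, 0, 0, 0⟩
  e02 := ⟨0, 0, 0, 0⟩
  e03 := ⟨0, 0, 0, 0⟩
  e10 := ⟨0, 0, 0, 0⟩
  e11 := ⟨0, 0, 0, 0⟩
  B1 := 0

def p5 : Pm where
  ec := ⟨20300431360, 0, 0, 0⟩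
  bc := ⟨0, 0, 0, 0⟩
  nn := ⟨6597069766656, 0, 0, 0⟩
  tj := ⟨15393162788864, 0, 0, 0⟩
  ca := ⟨439697276928, 0, 0, 0⟩
  cb := ⟨384936443904, 0, 0, 0⟩
  cc := ⟨0, 0, 0, 0⟩
  ax := ⟨0, 0, 0, 0⟩
  ay := ⟨0, 0, 0, 0⟩
  xa := ⟨0, 0, 0, 0⟩
  C2 := ⟨0, 0, 0, 0⟩
  wr := ⟨0, 1061930663936, 0, 0⟩
  wi := ⟨5872294035456, 0, 0, 0⟩
  w1 := ⟨0, 28759101014016, 0, 0⟩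
  h000 := ⟨0, 16196203456, 0, 0⟩
  h001 := ⟨0, 1683172480, 0, 0⟩
  h002 := ⟨3181402816, 0, 0, 0⟩
  h003 := ⟨3147513920, 0, 0, 0⟩
  h010 := ⟨0, 1440983498368, 0, 0⟩
  h011 := ⟨626653448064, 0, 0, 0⟩
  h012 := ⟨0, 0, 0, 0⟩
  h020 := ⟨0, 4341605002560, 0, 0⟩
  h021 := ⟨0, 0, 0, 0⟩
  h030 := ⟨0, 0, 0, 0⟩
  h100 := ⟨0, 1168907712, 0, 0⟩
  h101 := ⟨143153920, 0, 0, 0⟩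
  h102 := ⟨0, 274981312, 0, 0⟩
  h110 := ⟨0, 49978929088, 0, 0⟩
  h111 := ⟨0, 301842339264, 0, 0⟩
  h120 := ⟨0, 0, 0, 0⟩
  h200 := ⟨311497344, 0, 0, 0⟩
  h201 := ⟨83392832, 0, 0, 0⟩
  h202 := ⟨267277952, 0, 0, 0⟩
  h210 := ⟨32622543616, 0, 0, 0⟩
  h211 := ⟨0, 0, 0, 0⟩
  h300 := ⟨42944704, 0, 0, 0⟩
  h301 := ⟨0, 25476928, 0, 0⟩
  h310 := ⟨0, 7057082880, 0, 0⟩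
  h400 := ⟨0, 18118272, 0, 0⟩
  h401 := ⟨7869312, 0, 0, 0⟩
  h410 := ⟨0, 0, 0, 0⟩
  h500 := ⟨3560960, 0, 0, 0⟩
  h501 := ⟨0, 0, 0, 0⟩
  h600 := ⟨0, 292544, 0, 0⟩
  h700 := ⟨20096, 0, 0, 0⟩
  h800 := ⟨0, 0, 0, 0⟩
  m000 := ⟨1097729703936, 0, 0, 0⟩
  m001 := ⟨0, 437452800, 0, 0⟩
  m002 := ⟨2348285952, 0, 0, 0⟩
  m010 := ⟨138743709696, 0, 0, 0⟩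
  m100 := ⟨11585126400, 0, 0, 0⟩
  m101 := ⟨362807296, 0, 0, 0⟩
  m110 := ⟨547644637184, 0, 0, 0⟩
  m200 := ⟨0, 408748032, 0, 0⟩
  m300 := ⟨49348608, 0, 0, 0⟩
  a00 := ⟨50662014976, 0, 0, 0⟩
  a01 := ⟨21220950016, 0, 0, 0⟩
  a02 := ⟨339869696, 0, 0, 0⟩
  a03 := ⟨0, 170901569536, 0, 0⟩
  a10 := ⟨0, 680655519744, 0, 0⟩
  a11 := ⟨0, 2815702007808, 0, 0⟩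
  b00 := ⟨44261310464, 0, 0, 0⟩
  b01 := ⟨0, 8967684096, 0, 0⟩
  b02 := ⟨146765971456, 0, 0, 0⟩
  b03 := ⟨0, 468246200320, 0, 0⟩
  b10 := ⟨0, 921058213888, 0, 0⟩
  b11 := ⟨0, 1949253369856, 0, 0⟩
  t00 := ⟨610088058880, 0, 0, 0⟩
  t01 := ⟨0, 403894501376, 0, 0⟩
  t02 := ⟨2304780468224, 0, 0, 0⟩
  t03 := ⟨0, 6361868599296, 0, 0⟩
  t10 := ⟨0, 7540879523840, 0, 0⟩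
  t11 := ⟨0, 1787169603584, 0, 0⟩
  s00 := ⟨6290156617728, 0, 0, 0⟩
  s01 := ⟨1794925920256, 0, 0, 0⟩
  s02 := ⟨0, 4383297437696, 0, 0⟩
  s03 := ⟨12064444448768, 0, 0, 0⟩
  s10 := ⟨18895879864320, 0, 0, 0⟩
  s11 := ⟨39097908461568, 0, 0, 0⟩
  g00 := ⟨137651824768, 0, 0, 0⟩
  g01 := ⟨0, 54069104896, 0, 0⟩
  g10 := ⟨8996164881536, 0, 0, 0⟩
  g11 := ⟨0, 0, 0, 0⟩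
  f00 := ⟨360002610688, 0, 0, 0⟩
  f01 := ⟨366734264704, 0, 0, 0⟩
  f10 := ⟨30620273555776, 0, 0, 0⟩
  f11 := ⟨0, 0, 0, 0⟩
  l000 := ⟨0, 0, 0, 0⟩
  l001 := ⟨0, 0, 0, 0⟩
  l002 := ⟨0, 0, 0, 0⟩
  l010 := ⟨0, 0, 0, 0⟩
  l011 := ⟨0, 0, 0, 0⟩
  l020 := ⟨0, 0, 0, 0⟩
  l100 := ⟨0, 0, 0, 0⟩
  l101 := ⟨0, 0, 0, 0⟩
  l102 := ⟨0, 0, 0, 0⟩
  l110 := ⟨0, 0, 0, 0⟩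
  l111 := ⟨0, 0, 0, 0⟩
  l120 := ⟨0, 0, 0, 0⟩
  l200 := ⟨0, 0, 0, 0⟩
  l201 := ⟨0, 0, 0, 0⟩
  l210 := ⟨0, 0, 0, 0⟩
  l300 := ⟨0, 0, 0, 0⟩
  l301 := ⟨0, 0, 0, 0⟩
  l310 := ⟨0, 0, 0, 0⟩
  l400 := ⟨0, 0, 0, 0⟩
  l401 := ⟨0, 0, 0, 0⟩
  l410 := ⟨0, 0, 0, 0⟩
  l500 := ⟨0, 0, 0, 0⟩
  l501 := ⟨0, 0, 0, 0⟩
  l510 := ⟨0, 0, 0, 0⟩
  l600 := ⟨0, 0, 0, 0⟩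
  l700 := ⟨0, 0, 0, 0⟩
  l800 := ⟨0, 0, 0, 0⟩
  l900 := ⟨0, 0, 0, 0⟩
  l1000 := ⟨0, 0, 0, 0⟩
  l1100 := ⟨0, 0, 0, 0⟩
  q00 := ⟨0, 0, 0, 0⟩
  q01 := ⟨0, 0, 0, 0⟩
  q02 := ⟨0, 0, 0, 0⟩
  q03 := ⟨0, 0, 0, 0⟩
  q10 := ⟨0, 0, 0, 0⟩
  q11 := ⟨0, 0, 0, 0⟩
  q12 := ⟨0, 0, 0, 0⟩
  q20 := ⟨0, 0, 0, 0⟩
  q21 := ⟨0, 0, 0, 0⟩
  q30 := ⟨0, 0, 0, 0⟩
  n000 := ⟨0, 0, 0, 0⟩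
  n001 := ⟨0, 0, 0, 0⟩
  n002 := ⟨0, 0, 0, 0⟩
  n010 := ⟨0, 0, 0, 0⟩
  n011 := ⟨0, 0, 0, 0⟩
  n020 := ⟨0, 0, 0, 0⟩
  n100 := ⟨0, 0, 0, 0⟩
  n101 := ⟨0, 0, 0, 0⟩
  n110 := ⟨0, 0, 0, 0⟩
  n200 := ⟨0, 0, 0, 0⟩
  n201 := ⟨0, 0, 0, 0⟩
  n210 := ⟨0, 0, 0, 0⟩
  n300 := ⟨0, 0, 0, 0⟩
  n400 := ⟨0, 0, 0, 0⟩
  n500 := ⟨0, 0, 0, 0⟩
  e00 := ⟨0, 0, 0, 0⟩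
  e01 := ⟨0, 0, 0, 0⟩
  e02 := ⟨0, 0, 0, 0⟩
  e03 := ⟨0, 0, 0, 0⟩
  e10 := ⟨0, 0, 0, 0⟩
  e11 := ⟨0, 0, 0, 0⟩
  B1 := 0

def p6 : Pm where
  ec := ⟨20300431360, 0, 0, 0⟩
  bc := ⟨0, 0, 0, 0⟩
  nn := ⟨7696581394432, 0, 0, 0⟩
  tj := ⟨17592186044416, 0, 0, 0⟩
  ca := ⟨384936443904, 0, 0, 0⟩
  cb := ⟨0, 0, 0, 0⟩
  cc := ⟨0, 0, 0, 0⟩
  ax := ⟨0, 0, 0, 0⟩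
  ay := ⟨219902325760, 0, 0, 0⟩
  xa := ⟨5057753907200, 0, 0, 0⟩
  C2 := ⟨1472930433024, 0, 0, 0⟩
  wr := ⟨0, 1061930663936, 0, 0⟩
  wi := ⟨5872294035456, 0, 0, 0⟩
  w1 := ⟨0, 28759101014016, 0, 0⟩
  h000 := ⟨0, 16196203456, 0, 0⟩
  h001 := ⟨0, 1683172480, 0, 0⟩
  h002 := ⟨3181402816, 0, 0, 0⟩
  h003 := ⟨3147513920, 0, 0, 0⟩
  h010 := ⟨0, 1440983498368, 0, 0⟩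
  h011 := ⟨626653448064, 0, 0, 0⟩
  h012 := ⟨0, 0, 0, 0⟩
  h020 := ⟨0, 4341605002560, 0, 0⟩
  h021 := ⟨0, 0, 0, 0⟩
  h030 := ⟨0, 0, 0, 0⟩
  h100 := ⟨0, 1168907712, 0, 0⟩
  h101 := ⟨143153920, 0, 0, 0⟩
  h102 := ⟨0, 274981312, 0, 0⟩
  h110 := ⟨0, 49978929088, 0, 0⟩
  h111 := ⟨0, 301842339264, 0, 0⟩
  h120 := ⟨0, 0, 0, 0⟩
  h200 := ⟨311497344, 0, 0, 0⟩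
  h201 := ⟨83392832, 0, 0, 0⟩
  h202 := ⟨267277952, 0, 0, 0⟩
  h210 := ⟨32622543616, 0, 0, 0⟩
  h211 := ⟨0, 0, 0, 0⟩
  h300 := ⟨42944704, 0, 0, 0⟩
  h301 := ⟨0, 25476928, 0, 0⟩
  h310 := ⟨0, 7057082880, 0, 0⟩
  h400 := ⟨0, 18118272, 0, 0⟩
  h401 := ⟨7869312, 0, 0, 0⟩
  h410 := ⟨0, 0, 0, 0⟩
  h500 := ⟨3560960, 0, 0, 0⟩
  h501 := ⟨0, 0, 0, 0⟩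
  h600 := ⟨0, 292544, 0, 0⟩
  h700 := ⟨20096, 0, 0, 0⟩
  h800 := ⟨0, 0, 0, 0⟩
  m000 := ⟨1098219782144, 0, 0, 0⟩
  m001 := ⟨281739264, 0, 0, 0⟩
  m002 := ⟨539361280, 0, 0, 0⟩
  m010 := ⟨243202457600, 0, 0, 0⟩
  m100 := ⟨11257511936, 0, 0, 0⟩
  m101 := ⟨392560640, 0, 0, 0⟩
  m110 := ⟨533817393152, 0, 0, 0⟩
  m200 := ⟨0, 339542016, 0, 0⟩
  m300 := ⟨45613056, 0, 0, 0⟩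
  a00 := ⟨44261310464, 0, 0, 0⟩
  a01 := ⟨0, 8967684096, 0, 0⟩
  a02 := ⟨146765971456, 0, 0, 0⟩
  a03 := ⟨0, 468246200320, 0, 0⟩
  a10 := ⟨0, 921058213888, 0, 0⟩
  a11 := ⟨0, 1949253369856, 0, 0⟩
  b00 := ⟨0, 0, 0, 0⟩
  b01 := ⟨0, 0, 0, 0⟩
  b02 := ⟨0, 0, 0, 0⟩
  b03 := ⟨0, 0, 0, 0⟩
  b10 := ⟨0, 0, 0, 0⟩
  b11 := ⟨0, 0, 0, 0⟩
  t00 := ⟨533611610112, 0, 0, 0⟩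
  t01 := ⟨0, 627040387072, 0, 0⟩
  t02 := ⟨3604904476672, 0, 0, 0⟩
  t03 := ⟨0, 8873922592768, 0, 0⟩
  t10 := ⟨0, 10444048367616, 0, 0⟩
  t11 := ⟨5591924211712, 0, 0, 0⟩
  s00 := ⟨6900244676608, 0, 0, 0⟩
  s01 := ⟨1391031418880, 0, 0, 0⟩
  s02 := ⟨0, 2078516969472, 0, 0⟩
  s03 := ⟨5702575849472, 0, 0, 0⟩
  s10 := ⟨11355000340480, 0, 0, 0⟩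
  s11 := ⟨37310738857984, 0, 0, 0⟩
  g00 := ⟨137651824768, 0, 0, 0⟩
  g01 := ⟨0, 54069104896, 0, 0⟩
  g10 := ⟨8996164881536, 0, 0, 0⟩
  g11 := ⟨0, 0, 0, 0⟩
  f00 := ⟨360002610688, 0, 0, 0⟩
  f01 := ⟨366734264704, 0, 0, 0⟩
  f10 := ⟨30620273555776, 0, 0, 0⟩
  f11 := ⟨0, 0, 0, 0⟩
  l000 := ⟨0, 0, 0, 0⟩
  l001 := ⟨0, 0, 0, 0⟩
  l002 := ⟨0, 0, 0, 0⟩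
  l010 := ⟨0, 0, 0, 0⟩
  l011 := ⟨0, 0, 0, 0⟩
  l020 := ⟨0, 0, 0, 0⟩
  l100 := ⟨0, 0, 0, 0⟩
  l101 := ⟨0, 0, 0, 0⟩
  l102 := ⟨0, 0, 0, 0⟩
  l110 := ⟨0, 0, 0, 0⟩
  l111 := ⟨0, 0, 0, 0⟩
  l120 := ⟨0, 0, 0, 0⟩
  l200 := ⟨0, 0, 0, 0⟩
  l201 := ⟨0, 0, 0, 0⟩
  l210 := ⟨0, 0, 0, 0⟩
  l300 := ⟨0, 0, 0, 0⟩
  l301 := ⟨0, 0, 0, 0⟩
  l310 := ⟨0, 0, 0, 0⟩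
  l400 := ⟨0, 0, 0, 0⟩
  l401 := ⟨0, 0, 0, 0⟩
  l410 := ⟨0, 0, 0, 0⟩
  l500 := ⟨0, 0, 0, 0⟩
  l501 := ⟨0, 0, 0, 0⟩
  l510 := ⟨0, 0, 0, 0⟩
  l600 := ⟨0, 0, 0, 0⟩
  l700 := ⟨0, 0, 0, 0⟩
  l800 := ⟨0, 0, 0, 0⟩
  l900 := ⟨0, 0, 0, 0⟩
  l1000 := ⟨0, 0, 0, 0⟩
  l1100 := ⟨0, 0, 0, 0⟩
  q00 := ⟨0, 0, 0, 0⟩
  q01 := ⟨0, 0, 0, 0⟩
  q02 := ⟨0, 0, 0, 0⟩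
  q03 := ⟨0, 0, 0, 0⟩
  q10 := ⟨0, 0, 0, 0⟩
  q11 := ⟨0, 0, 0, 0⟩
  q12 := ⟨0, 0, 0, 0⟩
  q20 := ⟨0, 0, 0, 0⟩
  q21 := ⟨0, 0, 0, 0⟩
  q30 := ⟨0, 0, 0, 0⟩
  n000 := ⟨0, 0, 0, 0⟩
  n001 := ⟨0, 0, 0, 0⟩
  n002 := ⟨0, 0, 0, 0⟩
  n010 := ⟨0, 0, 0, 0⟩
  n011 := ⟨0, 0, 0, 0⟩
  n020 := ⟨0, 0, 0, 0⟩
  n100 := ⟨0, 0, 0, 0⟩
  n101 := ⟨0, 0, 0, 0⟩
  n110 := ⟨0, 0, 0, 0⟩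
  n200 := ⟨0, 0, 0, 0⟩
  n201 := ⟨0, 0, 0, 0⟩
  n210 := ⟨0, 0, 0, 0⟩
  n300 := ⟨0, 0, 0, 0⟩
  n400 := ⟨0, 0, 0, 0⟩
  n500 := ⟨0, 0, 0, 0⟩
  e00 := ⟨0, 0, 0, 0⟩
  e01 := ⟨0, 0, 0, 0⟩
  e02 := ⟨0, 0, 0, 0⟩
  e03 := ⟨0, 0, 0, 0⟩
  e10 := ⟨0, 0, 0, 0⟩
  e11 := ⟨0, 0, 0, 0⟩
  B1 := 1429364277248

def pF : Pm where
  ec := ⟨20300431360, 0, 0, 0⟩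
  bc := ⟨0, 0, 0, 0⟩
  nn := ⟨0, 0, 0, 0⟩
  tj := ⟨2199023255552, 0, 0, 0⟩
  ca := ⟨1099511627776, 0, 0, 0⟩
  cb := ⟨0, 0, 0, 0⟩
  cc := ⟨879662989312, 0, 0, 0⟩
  ax := ⟨0, 0, 0, 0⟩
  ay := ⟨0, 0, 0, 0⟩
  xa := ⟨0, 0, 0, 0⟩
  C2 := ⟨0, 0, 0, 0⟩
  wr := ⟨0, 1061930663936, 0, 0⟩
  wi := ⟨5872294035456, 0, 0, 0⟩
  w1 := ⟨0, 28759101014016, 0, 0⟩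
  h000 := ⟨0, 16196203456, 0, 0⟩
  h001 := ⟨0, 1683172480, 0, 0⟩
  h002 := ⟨3181402816, 0, 0, 0⟩
  h003 := ⟨3147513920, 0, 0, 0⟩
  h010 := ⟨0, 1440983498368, 0, 0⟩
  h011 := ⟨626653448064, 0, 0, 0⟩
  h012 := ⟨0, 0, 0, 0⟩
  h020 := ⟨0, 4341605002560, 0, 0⟩
  h021 := ⟨0, 0, 0, 0⟩
  h030 := ⟨0, 0, 0, 0⟩
  h100 := ⟨0, 1168907712, 0, 0⟩
  h101 := ⟨143153920, 0, 0, 0⟩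
  h102 := ⟨0, 274981312, 0, 0⟩
  h110 := ⟨0, 49978929088, 0, 0⟩
  h111 := ⟨0, 301842339264, 0, 0⟩
  h120 := ⟨0, 0, 0, 0⟩
  h200 := ⟨311497344, 0, 0, 0⟩
  h201 := ⟨83392832, 0, 0, 0⟩
  h202 := ⟨267277952, 0, 0, 0⟩
  h210 := ⟨32622543616, 0, 0, 0⟩
  h211 := ⟨0, 0, 0, 0⟩
  h300 := ⟨42944704, 0, 0, 0⟩
  h301 := ⟨0, 25476928, 0, 0⟩
  h310 := ⟨0, 7057082880, 0, 0⟩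
  h400 := ⟨0, 18118272, 0, 0⟩
  h401 := ⟨7869312, 0, 0, 0⟩
  h410 := ⟨0, 0, 0, 0⟩
  h500 := ⟨3560960, 0, 0, 0⟩
  h501 := ⟨0, 0, 0, 0⟩
  h600 := ⟨0, 292544, 0, 0⟩
  h700 := ⟨20096, 0, 0, 0⟩
  h800 := ⟨0, 0, 0, 0⟩
  m000 := ⟨0, 0, 0, 0⟩
  m001 := ⟨0, 0, 0, 0⟩
  m002 := ⟨0, 0, 0, 0⟩
  m010 := ⟨0, 0, 0, 0⟩
  m100 := ⟨0, 0, 0, 0⟩
  m101 := ⟨0, 0, 0, 0⟩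
  m110 := ⟨0, 0, 0, 0⟩
  m200 := ⟨0, 0, 0, 0⟩
  m300 := ⟨0, 0, 0, 0⟩
  a00 := ⟨105835659264, 0, 0, 0⟩
  a01 := ⟨294396100608, 0, 0, 0⟩
  a02 := ⟨0, 793638600704, 0, 0⟩
  a03 := ⟨1675457462272, 0, 0, 0⟩
  a10 := ⟨1301777285120, 0, 0, 0⟩
  a11 := ⟨0, 3640991285248, 0, 0⟩
  b00 := ⟨0, 0, 0, 0⟩
  b01 := ⟨0, 0, 0, 0⟩
  b02 := ⟨0, 0, 0, 0⟩
  b03 := ⟨0, 0, 0, 0⟩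
  b10 := ⟨0, 0, 0, 0⟩
  b11 := ⟨0, 0, 0, 0⟩
  t00 := ⟨1557477392384, 0, 0, 0⟩
  t01 := ⟨519597064192, 0, 0, 0⟩
  t02 := ⟨3221570846720, 0, 0, 0⟩
  t03 := ⟨0, 2031654862848, 0, 0⟩
  t10 := ⟨0, 5151304056832, 0, 0⟩
  t11 := ⟨60505061457920, 0, 0, 0⟩
  s00 := ⟨0, 0, 0, 0⟩
  s01 := ⟨0, 0, 0, 0⟩
  s02 := ⟨0, 0, 0, 0⟩
  s03 := ⟨0, 0, 0, 0⟩
  s10 := ⟨0, 0, 0, 0⟩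
  s11 := ⟨0, 0, 0, 0⟩
  g00 := ⟨137651824768, 0, 0, 0⟩
  g01 := ⟨0, 54069104896, 0, 0⟩
  g10 := ⟨8996164881536, 0, 0, 0⟩
  g11 := ⟨0, 0, 0, 0⟩
  f00 := ⟨360002610688, 0, 0, 0⟩
  f01 := ⟨366734264704, 0, 0, 0⟩
  f10 := ⟨30620273555776, 0, 0, 0⟩
  f11 := ⟨0, 0, 0, 0⟩
  l000 := ⟨3452796804992, 0, 0, 0⟩
  l001 := ⟨0, 4546092992, 0, 0⟩
  l002 := ⟨0, 0, 0, 0⟩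
  l010 := ⟨0, 296231874944, 0, 0⟩
  l011 := ⟨0, 0, 0, 0⟩
  l020 := ⟨0, 0, 0, 0⟩
  l100 := ⟨1573420707136, 0, 0, 0⟩
  l101 := ⟨9843549248, 0, 0, 0⟩
  l102 := ⟨0, 0, 0, 0⟩
  l110 := ⟨0, 21083849546304, 0, 0⟩
  l111 := ⟨0, 0, 0, 0⟩
  l120 := ⟨0, 0, 0, 0⟩
  l200 := ⟨290034709440, 0, 0, 0⟩
  l201 := ⟨0, 107236484096, 0, 0⟩
  l210 := ⟨15875238233920, 0, 0, 0⟩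
  l300 := ⟨1741233996544, 0, 0, 0⟩
  l301 := ⟨46001296256, 0, 0, 0⟩
  l310 := ⟨0, 122828072471040, 0, 0⟩
  l400 := ⟨0, 5472308795072, 0, 0⟩
  l401 := ⟨0, 193594576896, 0, 0⟩
  l410 := ⟨129525487358656, 0, 0, 0⟩
  l500 := ⟨17226661033536, 0, 0, 0⟩
  l501 := ⟨0, 103153059328, 0, 0⟩
  l510 := ⟨0, 141559523919168, 0, 0⟩
  l600 := ⟨0, 37859706888064, 0, 0⟩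
  l700 := ⟨70409324032768, 0, 0, 0⟩
  l800 := ⟨0, 94836837889344, 0, 0⟩
  l900 := ⟨101203507563264, 0, 0, 0⟩
  l1000 := ⟨0, 66095611240768, 0, 0⟩
  l1100 := ⟨30680821484800, 0, 0, 0⟩
  q00 := ⟨6012228096, 0, 0, 0⟩
  q01 := ⟨78327938176, 0, 0, 0⟩
  q02 := ⟨0, 29821135616, 0, 0⟩
  q03 := ⟨0, 0, 0, 0⟩
  q10 := ⟨0, 1922278721344, 0, 0⟩
  q11 := ⟨11340722605248, 0, 0, 0⟩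
  q12 := ⟨0, 0, 0, 0⟩
  q20 := ⟨0, 431778475387072, 0, 0⟩
  q21 := ⟨0, 0, 0, 0⟩
  q30 := ⟨0, 0, 0, 0⟩
  n000 := ⟨1094113689600, 0, 0, 0⟩
  n001 := ⟨0, 4897177600, 0, 0⟩
  n002 := ⟨23302045696, 0, 0, 0⟩
  n010 := ⟨21422145536, 0, 0, 0⟩
  n011 := ⟨1070446149632, 0, 0, 0⟩
  n020 := ⟨76902142902272, 0, 0, 0⟩
  n100 := ⟨71280099328, 0, 0, 0⟩
  n101 := ⟨11724521472, 0, 0, 0⟩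
  n110 := ⟨3129676201984, 0, 0, 0⟩
  n200 := ⟨0, 91582103552, 0, 0⟩
  n201 := ⟨0, 11567104000, 0, 0⟩
  n210 := ⟨4951162224640, 0, 0, 0⟩
  n300 := ⟨406754164736, 0, 0, 0⟩
  n400 := ⟨0, 516262526976, 0, 0⟩
  n500 := ⟨281989218304, 0, 0, 0⟩
  e00 := ⟨174338670592, 0, 0, 0⟩
  e01 := ⟨621255196672, 0, 0, 0⟩
  e02 := ⟨0, 1608412954624, 0, 0⟩
  e03 := ⟨7597680164864, 0, 0, 0⟩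
  e10 := ⟨2100956495872, 0, 0, 0⟩
  e11 := ⟨4510818304000, 0, 0, 0⟩
  B1 := 0

end Pool.Agent.helper12.K45
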